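import Pool.Agent.H30.T1M.Defs
import Pool.Agent.H22.T1.ZON3

/-!
# T1M: statements of the modules

Local rows: `L`, `O`, `π` as in `Loc`; `m = 2^j`.  Global rows: `R`, `K`, `O`, `π` as in T1T.
-/

set_option autoImplicit false

namespace Pool.T1M

open Polynomial Matrix Pool.HYP Pool.TOW Pool.AVS Pool.T1 IsDedekindDomain

section DefsM

/-- Over `L`, the class of `h` (for `f`) modulo `m`-th powers is the class of a divisor of the twist
`y^m = d^N f(x/d)`, `N` the degree of `f`. -/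
def LSDM {R : Type} [CommRing R] {K E : Type} [Field K] [Field E] [Algebra R K] [Algebra K E]
    {L : Type} [Field L] (ι : E →+* L) (m : ℕ) (d : R) (f : R[X]) (h : E[X]) : Prop :=
  ∃ u w s : L[X], u.Monic ∧ IsCoprime u ((fkE K E (f.scaleRoots d)).map ι) ∧
    u ∣ w ^ m - (fkE K E (f.scaleRoots d)).map ι ∧
    (fkE K E f).map ι ∣
      Pool.HYP.kap (u.comp (C (ι (algebraMap K E (algebraMap R K d))) * X)) - h.map ι * s ^ m

variable {R : Type} [CommRing R] [IsDedekindDomain R] (K : Type) [Field K] [Algebra R K]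
  [IsFractionRing R K]

/-- `TowA` for the ring `R`. -/
def TowPA (T : Finset (HeightOneSpectrum R)) (f : R[X]) : Prop :=
  ∀ (E : Type) [Field E] [Algebra K E], FiniteDimensional K E → IsGalois K E →
    (∃ m : ℕ, Module.finrank K E = 2 ^ m) → (∀ P ∈ T, SplV E (vP K P)) →
    (∀ P : HeightOneSpectrum R, UnrV E (vP K P) ∨ Irreducible (md P.asIdeal f)) →
    SelA (fkE K E f)

variable {K}

/-- The main step. -/
def OneA (O : ValuationSubring K) (π : K) (g : ℕ) (Ram : Finset (HeightOneSpectrum R)) : Prop :=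
  ∀ (D : Dat R O) (h : ℕ), D.Ok g → Ram ⊆ D.T' → ∀ f ∈ Fam π g D h, Smooth f →
    ¬ Bad K D.T f → ∃ S ⊆ D.T, ∀ d : R, Twi D.T D.T' S d → TowPA K D.T (f.scaleRoots d)

/-- The core of ZON3: all the classes of `WWK` are trivial. -/
def CoreA (O : ValuationSubring K) (π : K) (g : ℕ) (Ram : Finset (HeightOneSpectrum R)) : Prop :=
  ∀ (D : Dat R O) (h : ℕ), D.Ok g → Ram ⊆ D.T' → ∀ f ∈ Fam π g D h, Smooth f →
    ¬ Bad K D.T f → ∃ ϖ : HeightOneSpectrum R → R,
    (∀ P, ϖ P ∈ P.asIdeal ∧ ϖ P ∉ P.asIdeal ^ 2) ∧ ∃ S ⊆ D.T, ∀ d : R, Twi D.T D.T' S d →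
    ∀ (E : Type) [Field E] [Algebra K E], FiniteDimensional K E → IsGalois K E →
    (∃ m : ℕ, Module.finrank K E = 2 ^ m) → (∀ P ∈ D.T, SplV E (vP K P)) →
    (∀ P : HeightOneSpectrum R, UnrV E (vP K P) ∨
      Irreducible (md P.asIdeal (f.scaleRoots d))) →
    ∀ p ∈ Z22.WWK (K := K) E g f ϖ S D.T', ∃ s : E[X], fkE K E f ∣ p - s ^ 2

variable (R)

/-- The conclusion in the abstract setting, for the set `T`. -/
def PosA (O : ValuationSubring K) (π : K) (g : ℕ) (E₀ : Type) [Field E₀] [Algebra K E₀]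
    (T : Finset (HeightOneSpectrum R)) : Prop :=
  ∃ δ : ℝ, 0 < δ ∧ ∃ h0 : ℕ, ∀ h : ℕ, h0 ≤ h →
    (All R O π g h).Finite ∧ 0 < (AllS R O π g h).ncard ∧
    δ * (AllS R O π g h).ncard ≤
      {f ∈ AllS R O π g h | Irreducible (fk K f) ∧ SelA (fkE K E₀ f) ∧ TowPA K T f}.ncard

/-- The conclusion for `a_1 = 0`. -/
def PosAZ (O : ValuationSubring K) (π : K) (g : ℕ) (E₀ : Type) [Field E₀] [Algebra K E₀]
    (T : Finset (HeightOneSpectrum R)) : Prop :=
  ∃ δ : ℝ, 0 < δ ∧ ∃ h0 : ℕ, ∀ h : ℕ, h0 ≤ h →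
    0 < {f ∈ AllS R O π g h | f.coeff (2 * g) = 0}.ncard ∧
    δ * {f ∈ AllS R O π g h | f.coeff (2 * g) = 0}.ncard ≤
      {f ∈ AllS R O π g h | f.coeff (2 * g) = 0 ∧ Irreducible (fk K f) ∧
        SelA (fkE K E₀ f) ∧ TowPA K T f}.ncard

end DefsM

/-! ### Algebra -/

/-- MPA: `m`-th powers.
(1) If `a`, `b` in `O` have the same residue and `b` is a unit, then `a = b z^m`, `z` a unit of `O`:
Hensel's lemma for `X^m - a / b` at `1`, as `m` is a power of two and `2` is a unit of `O`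
(`H.two`, `H.hens`).
(2) `N` odd, `x^N = y^m`: `1 = a N + b m`, so `x = (y^a x^b)^m`. -/
def MPAStmt : Prop :=
  (∀ (L : Type) [Field L] (O : ValuationSubring L) (π : L), Loc L O π → ∀ (j : ℕ) (a b : O),
    IsUnit b → IsLocalRing.residue O a = IsLocalRing.residue O b →
    ∃ z : O, IsUnit z ∧ (a : L) = (b : L) * (z : L) ^ (2 ^ j)) ∧
  (∀ (L : Type) [Field L] (j N : ℕ) (x y : L), Odd N → x ≠ 0 → x ^ N = y ^ (2 ^ j) →
    ∃ z : L, z ≠ 0 ∧ x = z ^ (2 ^ j))

/-- MRT: `m`-th powers and roots of unity: `ζ` a primitive `2^j`-th root of unity, `i < j`.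
If `x^(2^i) = y^(2^j)`, then `x = ξ y^(2^(j-i))` with `ξ^(2^i) = 1`, and `ξ` is a power of
`ζ^(2^(j-i))`, the square of a power of `ζ`. -/
def MRTStmt : Prop :=
  ∀ (L : Type) [Field L] (i j : ℕ) (ζ x y : L), i < j → IsPrimitiveRoot ζ (2 ^ j) →
    x ^ (2 ^ i) = y ^ (2 ^ j) → IsSquare x

/-- HFL: Hensel's lemma for factorizations (`v` need not be monic).
By induction there are `A_n` monic of degree `deg a₀` and `B_n` of degree at most
`deg v - deg a₀`, congruent modulo `π^n` to the previous ones, with `v - A_n B_n` in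
`π^(n+1) O[x]`: if `v - A_n B_n = π^(n+1) c`, write `c = s a₀ + t b₀` modulo `π` with
`deg t < deg a₀` (then `deg s ≤ deg v - deg a₀`) and add `π^(n+1) T`, `π^(n+1) S`.  The coefficients
converge (`IsAdicComplete`), and `v = A B` as the intersection of the powers of the maximal ideal is
zero. -/
def HFLStmt : Prop :=
  ∀ (L : Type) [Field L] (O : ValuationSubring L) (π : L), Loc L O π →
    IsAdicComplete (IsLocalRing.maximalIdeal O) O →
    ∀ (v : O[X]) (a₀ b₀ : (IsLocalRing.ResidueField O)[X]), a₀.Monic → IsCoprime a₀ b₀ →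
    rd O v = a₀ * b₀ → ∃ a b : O[X], a.Monic ∧ rd O a = a₀ ∧ rd O b = b₀ ∧ v = a * b

/-- MLT: a monic polynomial, all of whose multiplicities except that of `γ` are divisible by `m`.
(`UniqueFactorizationMonoid`, `normalizedFactors`, or induction on the degree: split off `τ^j`.) -/
def MLTStmt : Prop :=
  ∀ (k : Type) [Field k] (q γ : k[X]) (m : ℕ), 1 ≤ m → q.Monic → γ.Monic → Irreducible γ →
    (∀ τ : k[X], τ.Monic → Irreducible τ → τ ≠ γ → ∀ j : ℕ, τ ^ j ∣ q → ¬ τ ^ (j + 1) ∣ q →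
      m ∣ j) →
    ∃ (μ : ℕ) (r : k[X]), r.Monic ∧ q = γ ^ μ * r ^ m ∧ ¬ γ ∣ r

/-- NRX: norms for `V` monic over `O` with reduction `(x - c₀)^μ`: the norm of `p` is in `O`, with
residue `p(c₀)^μ`.  (`norm_eq_resultant`, `resultant_map_map`, as in `norm_unit` of
`H85/HYP/EVN`; the resultant of `(x - c₀)^μ` and `q` is `q(c₀)^μ`: induction on `μ`, or the norm from
`k[x]/((x - c₀)^μ)`, multiplicative in the modulus by `NMUStmt`.) -/
def NRXStmt : Prop :=
  ∀ (L : Type) [Field L] (O : ValuationSubring L) (π : L), Loc L O π →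
    ∀ (V p : O[X]) (c₀ : IsLocalRing.ResidueField O) (μ : ℕ), V.Monic →
    rd O V = (X - C c₀) ^ μ →
    ∃ ν : O, (ν : L) = Algebra.norm L (AdjoinRoot.mk (oL O V) (oL O p)) ∧
      IsLocalRing.residue O ν = ((rd O p).eval c₀) ^ μ

/-! ### Orders -/

/-- EVG: orders and lengths, `f` an `m`-th power modulo the primitive `v` up to `π^k δ`.
Copy of EV1 (`H59/HYP/EV1`): in the local ring of `O[x]` at `(π, γ)`, `ilen v π = j` (proof of
`len_fin`), `C π^K w` integral, `K ≥ |k|`: `m ilen(v, w') = (m K + k) j + ilen(v, f)`, and `ilen(v, f)`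
is `0` if `γ` does not divide `f` modulo `π` (`f` is a unit there) and the order `n` otherwise. -/
def EVGStmt : Prop :=
  ∀ (L : Type) [Field L] (O : ValuationSubring L) (π : L), Loc L O π →
    ∀ (ϖ : O) (f γ v : O[X]) (w : L[X]) (δ : L) (k : ℤ) (m j : ℕ), (ϖ : L) = π → f.Monic →
    γ.Monic → Irreducible (rd O γ) → rd O v ≠ 0 → IsCoprime (oL O v) (oL O f) →
    UI (O : Set L) δ → 1 ≤ m → oL O v ∣ w ^ m - C (π ^ k * δ) * oL O f →
    (rd O γ) ^ j ∣ rd O v → ¬ (rd O γ) ^ (j + 1) ∣ rd O v →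
    (¬ rd O γ ∣ rd O f → (m : ℤ) ∣ k * j) ∧
    (rd O γ ∣ rd O f → ¬ InSq ϖ f γ → ∀ n : ℤ, VAL O ϖ f γ n (oL O v) → (m : ℤ) ∣ k * j + n)

/-- VALM: the order is multiplicative.  (Multiply the two relations.  For `C (π^e)`: `ν` is the
multiplicity of `γ` in `f` modulo `π`: if `ν = 1`, then `unf = C ϖ`; if `ν ≥ 2`, then `unf = γ` and
`f = γ^ν a + ϖ b` with `a`, `b` prime to `γ` modulo `π` (`b` as in `f_split` of `H59/HYP/EV1`, as `f`
is not in the square of the ideal), so `ϖ b = -γ^ν a` modulo `f`; for negative `e` exchange the two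
sides.) -/
def VALMStmt : Prop :=
  ∀ (L : Type) [Field L] (O : ValuationSubring L) (π : L), Loc L O π →
    ∀ (ϖ : O) (f γ : O[X]), (ϖ : L) = π → f.Monic → γ.Monic → Irreducible (rd O γ) →
    rd O γ ∣ rd O f → ¬ InSq ϖ f γ →
    (∀ (h h' : L[X]) (n n' : ℤ), VAL O ϖ f γ n h → VAL O ϖ f γ n' h' →
      VAL O ϖ f γ (n + n') (h * h')) ∧
    (∀ p : O[X], IsCoprime (rd O p) (rd O γ) → VAL O ϖ f γ 0 (oL O p)) ∧
    (∀ (h h' : L[X]) (n : ℤ), oL O f ∣ h - h' → VAL O ϖ f γ n h → VAL O ϖ f γ n h') ∧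
    ∃ ν : ℤ, ∀ e : ℤ, VAL O ϖ f γ (e * ν) (C (π ^ e))

/-- EV2M: if all orders of `h` are divisible by `m = 2^j`, then `h` is an `m`-th power times a unit.
Induction on `j` (`j = 0`: `s` an inverse of `h` modulo `f`, `p = 1`; `j = 1`: `EV2Stmt`).  For
`j ≥ 1`: `h s₁² = p₁` modulo `f` by `EV2Stmt`; the orders of `s₁` are `-n/2` (`VALMStmt`, `EV0Stmt`),
divisible by `2^(j-1)`, so `s₁ s₂^(2^(j-1)) = p₂` by induction.  Let `s₃` be an inverse of `s₂` modulo
`f` and `s = p₂ s₃`; then `h s^(2^j) = p₁ p₂^(2^j - 2)` modulo `f`. -/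
def EV2MStmt : Prop :=
  ∀ (L : Type) [Field L] (O : ValuationSubring L) (π : L), Loc L O π →
    ∀ (ϖ : O) (f : O[X]) (h : L[X]) (j : ℕ), (ϖ : L) = π → f.Monic → IsCoprime h (oL O f) →
    (∀ γ : O[X], γ.Monic → Irreducible (rd O γ) → rd O γ ∣ rd O f → ¬ InSq ϖ f γ ∧
      ∃ n : ℤ, (2 : ℤ) ^ j ∣ n ∧ VAL O ϖ f γ n h) →
    ∃ (s : L[X]) (p : O[X]), IsCoprime s (oL O f) ∧
      oL O f ∣ h * s ^ (2 ^ j) - oL O p ∧ IsCoprime (rd O p) (rd O f)

/-- EVM: at a prime where the curve is smooth and the twist is unramified, a `2^i`-th root of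
the class of a divisor of `y^m = f`, `m = 2^j`, `i < j`, is the class of a unit.
`u = π^(-e) v` up to a constant, `v` primitive (`exists_prim`).  By `EVGStmt` (`k = 0`) all orders of
`v` are divisible by `m`, so by `EV2MStmt` `v s₁^m = p`, a unit.  Norms: `N(p)` is a unit
(`norm_unit`), `N(C ε u) = N(a)^(2^i) N(s)^m = (c N(s))^m`, so `π^(e N)` is a unit times an `m`-th
power (of an element of `L`): `m` divides `e N`, `N` is odd: `m` divides `e`.  Orders: `2^i ord(a) =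
ord(C ε u) - m ord(s) = ord(v) - e ν - m ord(s)` is divisible by `m`, so `ord(a)` is even: `EV2Stmt`.
(Copy of `evn`, `H85/HYP/EVN`.) -/
def EVMStmt : Prop :=
  ∀ (L : Type) [Field L] (O : ValuationSubring L) (π : L), Loc L O π →
    ∀ (ϖ : O) (f : O[X]) (u w s a : L[X]) (δ ε c : L) (i j : ℕ), (ϖ : L) = π → f.Monic →
    Odd f.natDegree → (∀ γ : O[X], γ.Monic → Irreducible (rd O γ) → ¬ InSq ϖ f γ) →
    u.Monic → IsCoprime u (oL O f) → UI (O : Set L) δ → UI (O : Set L) ε → i < j →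
    u ∣ w ^ (2 ^ j) - C δ * oL O f → oL O f ∣ C ε * u - a ^ (2 ^ i) * s ^ (2 ^ j) →
    IsCoprime a (oL O f) →
    Algebra.norm L (AdjoinRoot.mk (oL O f) a) ^ (2 ^ i) = c ^ (2 ^ j) → USL O f a

/-! ### The ramified twist -/

/-- TWC: the factor `V` of `v` with reduction `(x - c)^μ`.
Norm of `V ∣ w^m - d^N (x - c) γ` from `L[x]/(V)`: `N(w)^m = d^(N μ) N(x - c) N(γ)`, `N(c - x) = V(c)`
(`NMUStmt`), `N(γ) = γ(c)^μ z^m` by NRX and MPA. -/
def TWCStmt : Prop :=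
  ∀ (L : Type) [Field L] (O : ValuationSubring L) (π : L), Loc L O π →
    ∀ (c : O) (γ V : O[X]) (w : L[X]) (d : L) (N j μ : ℕ), V.Monic →
    rd O V = (X - C (IsLocalRing.residue O c)) ^ μ → IsUnit (γ.eval c) →
    V.eval c ≠ 0 → d ≠ 0 →
    oL O V ∣ w ^ (2 ^ j) - C (d ^ N) * oL O ((X - C c) * γ) →
    ∃ e : L, e ≠ 0 ∧
      ((V.eval c : O) : L) * (d ^ N * ((γ.eval c : O) : L)) ^ μ = (-1) ^ μ * e ^ (2 ^ j)

/-- TWI: the factor `V` of `v` with constant reduction.  `t = deg V`, `b = V(0)` a unit, `l` the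
leading coefficient.  Let `V* = x^t V(1/x)` (`reverse`, `reflect`), `V*/b` is monic with reduction
`x^t`.  If `V q = w^m - d^N f`, choose `r` with `m r ≥ N` and `r ≥ deg w`; then
`V* (...) = (w*)^m - d^N x^(m r - N) f*`, `w* = x^r w(1/x)`, `f* = x^N f(1/x)`, `f*(0) = 1`.  Norm from
`L[x]/(V*/b)`: `N(w*)^m = d^(N t) N(x)^(m r - N) N(f*)`, `N(x) = (-1)^t l / b`, `N(f*)` is an `m`-th
power by NRX (residue `1`) and MPA.  So `((-d)^t b / l)^N` is an `m`-th power; MPA (2). -/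
def TWIStmt : Prop :=
  ∀ (L : Type) [Field L] (O : ValuationSubring L) (π : L), Loc L O π →
    ∀ (f V : O[X]) (w : L[X]) (d : L) (j : ℕ), f.Monic → Odd f.natDegree →
    (∃ b₀ : IsLocalRing.ResidueField O, b₀ ≠ 0 ∧ rd O V = C b₀) → d ≠ 0 →
    oL O V ∣ w ^ (2 ^ j) - C (d ^ f.natDegree) * oL O f →
    ∃ e : L, e ≠ 0 ∧
      ((V.coeff 0 : O) : L) * (-d) ^ V.natDegree = ((V.leadingCoeff : O) : L) * e ^ (2 ^ j)

/-- TWM: local classes of a ramified twist, `m = 2^j`.  `f = (x - c) γ`, `N = 2 g + 1`,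
`U = u(d x)`, of degree `t` and leading coefficient `d^t`; `U ∣ w(d x)^m - d^N f`;
`U = π^(-e) v`, `v` primitive (`exists_prim`).  By HFL `v = V_c V_r V_o`, `V_c`, `V_r` monic,
`rd V_c = (x - c)^μ`, `rd V_r` monic prime to `x - c`, `rd V_o` a nonzero constant.
By EVG (`δ = (d/π)^N`, `k = N`, `N` odd) the multiplicities of `rd V_r` outside `γ` are divisible by
`m`: `rd V_r = γ^μ' r^m` (MLT), `V_r(c) = γ(c)^μ' z^m`, `deg V_r = 2 g μ' + m deg r`; and
`n_v + N μ'` is divisible by `m` (`n_v` the order of `v` at `γ`; `unf = C ϖ`), `n = n_v - e`.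
TWI: `V_o(0) (-d)^(deg V_o) = l e₁^m`, `l = π^e d^t`, `V_o(c) = V_o(0) z^m`; the valuation of
this gives `e + t - deg V_o = 0` modulo `m`, where `t - deg V_o = μ + deg V_r`.
TWC: `V_c(c) (d^N γ(c))^μ = (-1)^μ e₂^m`.  Multiply everything:
`κ(c) = (-1)^t π^(-e) V_o(c) V_c(c) V_r(c) = (d^(2g) γ(c))^(μ' - μ)` modulo `m`-th powers, and
`μ' - μ + n = 0` modulo `m`. -/
def TWMStmt : Prop :=
  ∀ (L : Type) [Field L] (O : ValuationSubring L) (π : L), Loc L O π →
    IsAdicComplete (IsLocalRing.maximalIdeal O) O →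
    ∀ (g : ℕ) (c : O) (γ : O[X]), 1 ≤ g → OkL O g γ → ∀ d : L, UI (O : Set L) (d / π) →
    ∀ (u w : L[X]) (j : ℕ), u.Monic →
      IsCoprime u ((oL O ((X - C c) * γ)).scaleRoots d) →
      u ∣ w ^ (2 ^ j) - (oL O ((X - C c) * γ)).scaleRoots d →
      ∃ (n : ℤ) (p : O[X]) (e : L), IsCoprime (rd O p) (rd O γ) ∧
        oL O γ ∣ Pool.HYP.kap (u.comp (C d * X)) - C (π ^ n) * oL O p ∧ e ≠ 0 ∧
        (Pool.HYP.kap (u.comp (C d * X))).eval (c : L) *
          (d ^ (2 * g) * (oL O γ).eval (c : L)) ^ n = e ^ (2 ^ j)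

/-- TYR: the type of a `2^i`-th root of the class of a divisor of the ramified twist.
`κ = a^(2^i) s^m` modulo `f`; `a = π^x p`, `s = π^y q` modulo `γ` (`UNRStmt`), so `n = 2^i x + m y`
(uniqueness in `UNRStmt`); at `c`: `(a(c) (d^(2g) γ(c))^x)^(2^i)` is an `m`-th power, so
`a(c) (d^(2g) γ(c))^x` is a square by MRT, and so is `a(c) γ(c)^x`.  (`TYQ`: the type is unique.) -/
def TYRStmt : Prop :=
  ∀ (L : Type) [Field L] (O : ValuationSubring L) (π : L), Loc L O π →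
    IsAdicComplete (IsLocalRing.maximalIdeal O) O →
    ∀ (g : ℕ) (c : O) (γ : O[X]), 1 ≤ g → OkL O g γ → ∀ d : L, UI (O : Set L) (d / π) →
    ∀ (u w s a : L[X]) (ζ : L) (i j : ℕ) (x : Ty), i < j → IsPrimitiveRoot ζ (2 ^ j) →
      u.Monic → IsCoprime u ((oL O ((X - C c) * γ)).scaleRoots d) →
      u ∣ w ^ (2 ^ j) - (oL O ((X - C c) * γ)).scaleRoots d →
      oL O ((X - C c) * γ) ∣
        Pool.HYP.kap (u.comp (C d * X)) - a ^ (2 ^ i) * s ^ (2 ^ j) →
      IsCoprime a (oL O ((X - C c) * γ)) → TyL O π c γ x a → x.2 = 0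

/-! ### Global rows -/

/-- ZLAM: ZLDA (`H94/T1/ZLDA`) with `EVMStmt` in place of `EVNStmt`; `a^(2^i) = p` modulo `f`. -/
def ZLAMStmt : Prop :=
  ∀ (R : Type) [CommRing R] [IsDedekindDomain R] (K : Type) [Field K] [Algebra R K]
    [IsFractionRing R K] (O : ValuationSubring K) (π : K), GR R O π →
    ∀ (g : ℕ) (P : HeightOneSpectrum R) (ϖ : R) (E : Type) [Field E] [Algebra K E] (L : Type)
    [Field L] (O' : ValuationSubring L) (ι : E →+* L),
    UCP P ϖ L O' (ι.comp (algebraMap K E)) → ∀ (f : R[X]) (d : R) (p a : E[X]) (i j : ℕ),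
    f.Monic → f.natDegree = 2 * g + 1 → ¬ Sing P.asIdeal f → d ∉ P.asIdeal → i < j →
    IsCoprime a (fkE K E f) → fkE K E f ∣ p - a ^ (2 ^ i) →
    (∃ c : E, Algebra.norm E (AdjoinRoot.mk (fkE K E f) a) ^ (2 ^ i) = c ^ (2 ^ j)) →
    LSDM (K := K) ι (2 ^ j) d f p → ∀ fO : O'[X],
    oL O' fO = (fkE K E f).map ι → USL O' fO (a.map ι)

/-- ZLBM: ZLDB (`H18/T1/ZLDB`) with `TYRStmt` in place of `TW2Stmt`. -/
def ZLBMStmt : Prop :=
  ∀ (R : Type) [CommRing R] [IsDedekindDomain R] (K : Type) [Field K] [Algebra R K]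
    [IsFractionRing R K] (O : ValuationSubring K) (π : K), GR R O π →
    ∀ (g : ℕ) (P : HeightOneSpectrum R) (ϖ : R) (E : Type) [Field E] [Algebra K E] (L : Type)
    [Field L] (O' : ValuationSubring L) (ι : E →+* L), 1 ≤ g →
    UCP P ϖ L O' (ι.comp (algebraMap K E)) → Cpl E L O' ι →
    ∀ (f : R[X]) (d : R) (p a : E[X]) (ζ : E) (i j : ℕ) (c : O') (γ : O'[X]) (x : Ty),
    f.Monic → f.natDegree = 2 * g + 1 → OkL O' g γ →
    (fkE K E f).map ι = oL O' ((X - C c) * γ) →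
    d ∈ P.asIdeal → d ∉ P.asIdeal ^ 2 → i < j → IsPrimitiveRoot ζ (2 ^ j) →
    IsCoprime a (fkE K E f) → fkE K E f ∣ p - a ^ (2 ^ i) →
    LSDM (K := K) ι (2 ^ j) d f p →
    TyL O' (ι (algebraMap K E (algebraMap R K ϖ))) c γ x (a.map ι) → x.2 = 0

/-- ZTWM: a nontrivial class of the twist over `E`.  (Copy of ZTWS, `H40/T1/ZTWS`, exponent `m`.) -/
def ZTWMStmt : Prop :=
  ∀ (R : Type) [CommRing R] [IsDomain R] (K : Type) [Field K] [Algebra R K]
    [IsFractionRing R K] (E : Type) [Field E] [Algebra K E] (f : R[X]) (d : R) (m : ℕ),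
    f.Monic → d ≠ 0 → ¬ SelM m (fkE K E (f.scaleRoots d)) →
    ∃ p : E[X], IsCoprime p (fkE K E f) ∧
      (∃ c : E, Algebra.norm E (AdjoinRoot.mk (fkE K E f) p) = c ^ m) ∧
      (¬ ∃ s : E[X], fkE K E f ∣ p - s ^ m) ∧
      ∀ (L : Type) [Field L] (O' : ValuationSubring L) (ι : E →+* L), Cpl E L O' ι →
        LSDM (K := K) ι m d f p

/-- CORE: the proof of `zon3` (`H22/T1/ZON3`) from `hpW` on (the conclusion for all `p` in `WWK`
instead of for the nontrivial class of the twist). -/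
def COREStmt : Prop :=
  ∀ (R : Type) [CommRing R] [IsDedekindDomain R] (K : Type) [Field K] [Algebra R K]
    [IsFractionRing R K] (O : ValuationSubring K) (π : K), GR R O π →
    ∀ (g : ℕ) (Ram : Finset (HeightOneSpectrum R)), 1 ≤ g → Rec (R := R) (O := O) π Ram →
    CoreA O π g Ram

/-- ZOM: the main step.  Let `p` be a class of ZTWM, `m = 2^j`.  By induction on `i ≤ j` there is
`a` prime to `f` with `p = a^(2^i)` modulo `f`: for `i < j` the class `a` is in `WWK` (norm: MRT;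
`ZLAM`, `ZLBM` with ZSPC, ZUNC as in `sel_mem` of `H22/T1/ZON3`), so `a = b²` by CORE.  For `i = j`
this contradicts ZTWM. -/
def ZOMStmt : Prop :=
  ∀ (R : Type) [CommRing R] [IsDedekindDomain R] (K : Type) [Field K] [Algebra R K]
    [IsFractionRing R K] (O : ValuationSubring K) (π : K), GR R O π →
    ∀ (g : ℕ) (Ram : Finset (HeightOneSpectrum R)), 1 ≤ g → Rec (R := R) (O := O) π Ram →
    OneA O π g Ram

/-- ZTRM: translation of `x`.  (Copy of ZTRA, `H31/T1/ZTRA`, and of `TRAK.sel_comp`,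
`H88/T1/TRAK`.) -/
def ZTRMStmt : Prop :=
  ∀ (R : Type) [CommRing R] [IsDedekindDomain R] (K : Type) [Field K] [Algebra R K]
    [IsFractionRing R K] (T : Finset (HeightOneSpectrum R)) (f : R[X]) (c : R), f.Monic →
    (TowPA K T (f.comp (X - C c)) ↔ TowPA K T f) ∧
    ∀ (E : Type) [Field E] [Algebra K E],
      (SelA (fkE K E (f.comp (X - C c))) ↔ SelA (fkE K E f))

/-- ZZEM: the equations with `a_1 = 0` (`H29/T1/ZZER`). -/
def ZZEMStmt : Prop :=
  ∀ (R : Type) [CommRing R] [IsDedekindDomain R] (K : Type) [Field K] [Algebra R K]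
    [IsFractionRing R K] (O : ValuationSubring K) (π : K), GR R O π →
    ∀ g : ℕ, 1 ≤ g → IsUnit ((2 * g + 1 : ℕ) : R) → ∀ (E₀ : Type) [Field E₀] [Algebra K E₀]
    (T : Finset (HeightOneSpectrum R)), PosA R O π g E₀ T → PosAZ R O π g E₀ T

/-- ZPOM: the theorem in the abstract setting (`H29/T1/ZPOS`). -/
def ZPOMStmt : Prop :=
  ∀ (R : Type) [CommRing R] [IsDedekindDomain R] (K : Type) [Field K] [Algebra R K]
    [IsFractionRing R K] (O : ValuationSubring K) (π : K), GR R O π → Der R O π → Mink R O π →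
    (∃ Ram : Finset (HeightOneSpectrum R), Rec (R := R) (O := O) π Ram) →
    ∀ g : ℕ, 1 ≤ g → ∀ (E₀ : Type) [Field E₀] [Algebra K E₀], FiniteDimensional K E₀ →
    IsGalois K E₀ → (∃ m : ℕ, Module.finrank K E₀ = 2 ^ m) →
    ∃ T : Finset (HeightOneSpectrum R), (∀ P ∈ T, SplV E₀ (vP K P)) ∧ PosA R O π g E₀ T

end Pool.T1M
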