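import Pool.Agent.H29.T1.FIN
import Pool.Agent.H44.T1.INTR
import Pool.Agent.H30.T1M.S

/-!
# T1M: from the abstract to the concrete setting
-/

set_option autoImplicit false

namespace Pool.T1M

open Polynomial Matrix Pool.HYP Pool.TOW Pool.AVS Pool.T1 IsDedekindDomain

section

variable {F : Type} [Field F] {K : Type} [Field K] [Algebra (RatFunc F) K]
  [FiniteDimensional (RatFunc F) K] [Algebra.IsSeparable (RatFunc F) K]

theorem tow_image (hVAL : ZVALStmt) (hIRV : ZIRVStmt) {O : ValuationSubring K}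
    (hO : OnePole F O) (T : Finset (HeightOneSpectrum (RR F K))) (q : (RR F K)[X])
    (hq : q.Monic) [DecidableEq (ValuationSubring K)] (h : TowPA K T q) :
    TowA O (T.image fun P => vP K P) (fk K q) := by
  intro E _ _ hf hg hd hT hU
  refine h E hf hg hd (fun P hP => hT _ (Finset.mem_image_of_mem _ hP)) fun P => ?_
  obtain ⟨-, h2, -⟩ := hVAL (RR F K) K
  obtain ⟨h3, h4, -⟩ := h2 P
  have hne : vP K P ≠ O := by
    intro h5
    refine hO.1 ?_
    rw [← h5]
    have h6 := h4 (xR F K X)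
    rwa [algMap_RR, xR_coe, RatFunc.algebraMap_X] at h6
  exact (hU _ h3 hne).imp id (hIRV (RR F K) K P q hq).1

omit [Algebra.IsSeparable (RatFunc F) K] in
theorem sep_le {A : Set (RR F K)[X]} (hA : A.Finite) (s : K[X] → Prop) (t : (RR F K)[X] → Prop)
    (hst : ∀ q ∈ A, t q → s (fk K q)) :
    {f ∈ A | t f}.ncard ≤ {f ∈ (fun f : (RR F K)[X] => fk K f) '' A | s f}.ncard := by
  rw [← Set.ncard_image_of_injective {f ∈ A | t f} (fk_inj (F := F) (K := K))]
  refine Set.ncard_le_ncard ?_ ((hA.image _).subset fun f hf => hf.1)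
  rintro f ⟨q, ⟨hq, hq2⟩, rfl⟩
  exact ⟨⟨q, hq, rfl⟩, hst q hq hq2⟩

end

theorem zfnm (hGRI : GRIStmt) (hDER : DERIStmt) (hMIN : MINKIStmt) (hREC : RECIStmt)
    (hPOS : ZPOMStmt) (hZER : ZZEMStmt) (hVAL : ZVALStmt) (hIRV : ZIRVStmt) : MainMStmt := by
  classical
  intro F _ _ h2 K _ _ _ _ O hO g hg E₀ _ _ hf0 hg0 hd0
  obtain ⟨⟨π, hπ⟩, hall⟩ := hGRI F h2 K O hO
  obtain ⟨H, hP⟩ := hall π hπ
  obtain ⟨T, hT, hpos⟩ := hPOS (RR F K) K O π H (hDER F h2 K O hO π hπ)
    (hMIN F h2 K O hO π hπ) (hREC F h2 K O hO π hπ) g hg E₀ hf0 hg0 hd0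
  obtain ⟨hV1, hV2, hV3⟩ := hVAL (RR F K) K
  have hposz : ((2 * g + 1 : ℕ) : F) ≠ 0 → PosAZ (RR F K) O π g E₀ T := by
    intro hN
    refine hZER (RR F K) K O π H g hg ?_ E₀ T hpos
    have h1 : ((2 * g + 1 : ℕ) : RR F K) = xR F K (C ((2 * g + 1 : ℕ) : F)) := by
      rw [map_natCast, map_natCast]
    rw [h1]
    exact ((isUnit_iff_ne_zero.2 hN).map C).map (xR F K)
  obtain ⟨δ, hδ, h0, hh⟩ := hpos
  refine ⟨T.image fun P => vP K P, ?_, ?_⟩
  · intro w hw
    obtain ⟨P, hPT, rfl⟩ := Finset.mem_image.1 hw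
    refine ⟨(hV2 P).1, ?_, hT P hPT⟩
    intro h5
    refine hO.1 ?_
    rw [← h5]
    have h6 := (hV2 P).2.1 (xR F K X)
    rwa [algMap_RR, xR_coe, RatFunc.algebraMap_X] at h6
  have htow : ∀ q : (RR F K)[X], q.Monic → TowPA K T q →
      TowA O (T.image fun P => vP K P) (fk K q) := fun q hq h =>
    tow_image hVAL hIRV hO T q hq h
  have hA : ∀ h, (HypK F O g h) = (fun f : (RR F K)[X] => fk K f) '' AllS (RR F K) O π g h :=
    fun h => hyp_image hP g h
  have hn : ∀ h, (HypK F O g h).ncard = (AllS (RR F K) O π g h).ncard := by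
    intro h
    rw [hA h, Set.ncard_image_of_injective _ fk_inj]
  have hfinS : ∀ h, h0 ≤ h → (AllS (RR F K) O π g h).Finite := fun h hh' =>
    (hh h hh').1.subset fun f hf => hf.1
  have hc2 : ∀ q : (RR F K)[X], (fk K q).coeff (2 * g) = 0 ↔ q.coeff (2 * g) = 0 := by
    intro q
    rw [coeff_map, map_eq_zero_iff _ (IsFractionRing.injective (RR F K) K)]
  by_cases hN : ((2 * g + 1 : ℕ) : F) ≠ 0
  · obtain ⟨δ', hδ', h0', hh'⟩ := hposz hN
    refine ⟨min δ δ', lt_min hδ hδ', max h0 h0', fun h hle => ?_⟩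
    have hle1 : h0 ≤ h := le_trans (le_max_left _ _) hle
    have hle2 : h0' ≤ h := le_trans (le_max_right _ _) hle
    obtain ⟨h3, h4, h5⟩ := hh h hle1
    obtain ⟨h6, h7⟩ := hh' h hle2
    refine ⟨?_, ?_, ?_, fun _ => ⟨?_, ?_⟩⟩
    · rw [hA h]
      exact (hfinS h hle1).image _
    · rw [hn]
      exact h4
    · rw [hn]
      refine (mul_le_mul_of_nonneg_right (min_le_left _ _) (by positivity)).trans (h5.trans ?_)
      rw [hA h, Nat.cast_le]
      exact sep_le (hfinS h hle1) _ _ fun q hq hq2 => ⟨hq2.1, hq2.2.1, htow q hq.1.1 hq2.2.2⟩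
    · rw [hA h, sep_image (fun f => f.coeff (2 * g) = 0)]
      simp only [hc2]
      exact h6
    · rw [hA h, sep_image (fun f => f.coeff (2 * g) = 0)]
      simp only [hc2]
      refine (mul_le_mul_of_nonneg_right (min_le_right _ _) (by positivity)).trans
        (h7.trans ?_)
      rw [Nat.cast_le]
      exact sep_le (hfinS h hle1) _ _ fun q hq hq2 =>
        ⟨(hc2 q).2 hq2.1, hq2.2.1, hq2.2.2.1, htow q hq.1.1 hq2.2.2.2⟩
  · refine ⟨δ, hδ, h0, fun h hle => ?_⟩
    obtain ⟨h3, h4, h5⟩ := hh h hle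
    refine ⟨?_, ?_, ?_, fun h6 => (hN h6).elim⟩
    · rw [hA h]
      exact (hfinS h hle).image _
    · rw [hn]
      exact h4
    · rw [hn]
      refine h5.trans ?_
      rw [hA h, Nat.cast_le]
      exact sep_le (hfinS h hle) _ _ fun q hq hq2 => ⟨hq2.1, hq2.2.1, htow q hq.1.1 hq2.2.2⟩

open Pool.T44 in
/-- The intrinsic form of the main theorem. -/
theorem zinm (h : MainMStmt) : IntrMStmt := by
  intro F _ _ h2 K _ _ _ htr v hv g hg E₀ _ _ hfd hgal htwo
  obtain ⟨a, hfin, hsep, hone, hpole⟩ := one_pole (F := F) htr v hv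
  have hyp : ∀ h : ℕ, HypK F v g h = HypV v g h := by
    intro h
    unfold HypK HypV
    simp only [hpole]
  have := h F h2 K v hone g hg E₀ hfd hgal htwo
  simp only [hyp] at this
  exact this

end Pool.T1M
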