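import Pool.Agent.H29.T1.TDefs

/-!
# T1M: the cyclic covers `y^m = f(x)`, `m` a power of two: definitions
-/

set_option autoImplicit false

namespace Pool.T1M

open Polynomial Pool.HYP Pool.TOW Pool.T1 Pool.T44

section Selmer

/-- Over the field `L` the class of `p` modulo `m`-th powers is the class of `(-1)^(deg u) u` for a
monic `u`, prime to `f`, such that `f` is an `m`-th power modulo `u`: it is the image of the class of
the divisor `u = 0, y = w` of the curve `y^m = f(x)` under the map `x - X`. -/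
def LocSolM {L : Type} [Field L] (m : ℕ) (f p : L[X]) : Prop :=
  ∃ u w s : L[X], u.Monic ∧ IsCoprime u f ∧ u ∣ w ^ m - f ∧
    f ∣ (-1) ^ u.natDegree * u - p * s ^ m

/-- The `(1 - ζ)`-Selmer group over `E` of the Jacobian of `y^m = f(x)` is trivial (`ζ` a primitive
`m`-th root of unity in `E`): every `p` prime to `f` whose norm from `E[x]/(f)` is an `m`-th power
and whose class is, over every completion of `E`, the class of a divisor, is an `m`-th power modulo
`f`. -/
def SelM {E : Type} [Field E] (m : ℕ) (f : E[X]) : Prop :=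
  ∀ p : E[X], IsCoprime p f → (∃ c : E, Algebra.norm E (AdjoinRoot.mk f p) = c ^ m) →
    (∀ (L : Type) [Field L] (O : ValuationSubring L) (ι : E →+* L), Cpl E L O ι →
      LocSolM m (f.map ι) (p.map ι)) →
    ∃ s : E[X], f ∣ p - s ^ m

/-- `SelM m f` for every power `m` of two such that `E` contains a primitive `m`-th root of
unity. -/
def SelA {E : Type} [Field E] (f : E[X]) : Prop :=
  ∀ j : ℕ, (∃ ζ : E, IsPrimitiveRoot ζ (2 ^ j)) → SelM (2 ^ j) f

end Selmer

section Places

variable {K : Type} [Field K]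

/-- `SelA` holds over every Galois extension `E` of `K` whose degree is a power of two, in which the
places of `T` split completely and the places `w ≠ v` modulo which `f` is not irreducible are
unramified. -/
def TowA (v : ValuationSubring K) (T : Finset (ValuationSubring K)) (f : K[X]) : Prop :=
  ∀ (E : Type) [Field E] [Algebra K E], FiniteDimensional K E → IsGalois K E →
    (∃ m : ℕ, Module.finrank K E = 2 ^ m) → (∀ w ∈ T, SplV E w) →
    (∀ w : ValuationSubring K, w ≠ ⊤ → w ≠ v → UnrV E w ∨ IrrV w f) →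
    SelA (f.map (algebraMap K E))

end Places

/-- The main theorem. -/
def IntrMStmt : Prop :=
  ∀ (F : Type) [Field F] [Finite F], (2 : F) ≠ 0 → ∀ (K : Type) [Field K] [Algebra F K]
    [Algebra.EssFiniteType F K], Algebra.trdeg F K = 1 →
    ∀ v : ValuationSubring K, v ≠ ⊤ → ∀ g : ℕ, 1 ≤ g →
    ∀ (E₀ : Type) [Field E₀] [Algebra K E₀], FiniteDimensional K E₀ → IsGalois K E₀ →
    (∃ m : ℕ, Module.finrank K E₀ = 2 ^ m) →
    ∃ T : Finset (ValuationSubring K), (∀ w ∈ T, w ≠ ⊤ ∧ w ≠ v ∧ SplV E₀ w) ∧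
    ∃ δ : ℝ, 0 < δ ∧ ∃ h0 : ℕ, ∀ h : ℕ, h0 ≤ h →
      (HypV v g h).Finite ∧ 0 < (HypV v g h).ncard ∧
      δ * (HypV v g h).ncard ≤ {f ∈ HypV v g h | Irreducible f ∧
        SelA (f.map (algebraMap K E₀)) ∧ TowA v T f}.ncard ∧
      (((2 * g + 1 : ℕ) : F) ≠ 0 →
        0 < {f ∈ HypV v g h | f.coeff (2 * g) = 0}.ncard ∧
        δ * {f ∈ HypV v g h | f.coeff (2 * g) = 0}.ncard ≤
          {f ∈ HypV v g h | f.coeff (2 * g) = 0 ∧ Irreducible f ∧
            SelA (f.map (algebraMap K E₀)) ∧ TowA v T f}.ncard)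

/-- The same for `K` finite and separable over `F(t)` and a place `O`, the only one where `t` has a
pole. -/
def MainMStmt : Prop :=
  ∀ (F : Type) [Field F] [Finite F], (2 : F) ≠ 0 → ∀ (K : Type) [Field K]
    [Algebra (RatFunc F) K] [FiniteDimensional (RatFunc F) K] [Algebra.IsSeparable (RatFunc F) K]
    (O : ValuationSubring K), OnePole F O → ∀ g : ℕ, 1 ≤ g →
    ∀ (E₀ : Type) [Field E₀] [Algebra K E₀], FiniteDimensional K E₀ → IsGalois K E₀ →
    (∃ m : ℕ, Module.finrank K E₀ = 2 ^ m) →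
    ∃ T : Finset (ValuationSubring K), (∀ w ∈ T, w ≠ ⊤ ∧ w ≠ O ∧ SplV E₀ w) ∧
    ∃ δ : ℝ, 0 < δ ∧ ∃ h0 : ℕ, ∀ h : ℕ, h0 ≤ h →
      (HypK F O g h).Finite ∧ 0 < (HypK F O g h).ncard ∧
      δ * (HypK F O g h).ncard ≤ {f ∈ HypK F O g h | Irreducible f ∧
        SelA (f.map (algebraMap K E₀)) ∧ TowA O T f}.ncard ∧
      (((2 * g + 1 : ℕ) : F) ≠ 0 →
        0 < {f ∈ HypK F O g h | f.coeff (2 * g) = 0}.ncard ∧
        δ * {f ∈ HypK F O g h | f.coeff (2 * g) = 0}.ncard ≤
          {f ∈ HypK F O g h | f.coeff (2 * g) = 0 ∧ Irreducible f ∧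
            SelA (f.map (algebraMap K E₀)) ∧ TowA O T f}.ncard)

end Pool.T1M
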